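import Pool.Agent.H435.GB.Lgt
import Pool.Graph.R_seed8.Y741.MFin

/-!
The degrees of curves in generic pairs in the borderline case.
-/

set_option autoImplicit false

open MvPolynomial FF Pool.Agent.W603.LV Pool.Agent.W603.PV Pool.Agent.TH145.GH
open Pool.Agent.Y735 (lf pm tm pl vol vol_apply po po_le exists_po zp zp_pl zp_smul exists_xi rho
  eval_rho fht fht_fin fht_nonneg sum_two po_finite)
open Pool.Agent.W602.GT Pool.Agent.TH145.GF

namespace Pool.Agent.H435.GB

open Pool.Agent.Y741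

section

variable {k L : Type} [Field k] [Field L] [Algebra k L] [IsAlgClosed k] [CharZero k] [IsFF k L]
  {n : ℕ}

/-- A logarithmic multiple of a vector field. -/
theorem der_log (P : Place k L) {δ : Derivation k L L} (hδ : δ ≠ 0) :
    DerLog P ((unif P * (δ (unif P))⁻¹) • δ) := by
  have hπ := ord_unif P
  have hδπ := der_pi_ne_zero hδ P hπ
  have hu0 : unif P ≠ 0 := by
    intro h
    rw [h, P.ord_zero] at hπ
    exact zero_ne_one hπ
  obtain ⟨D1, hD1⟩ : ∃ D1 : Derivation k L L, D1 = (δ (unif P))⁻¹ • δ := ⟨_, rfl⟩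
  have h1 : ∀ f, Ge P 0 f → Ge P (-(0 : ℤ)) (D1.restrictScalars ℤ f) := by
    intro f hf
    rw [neg_zero]
    exact der_reg P hπ D1 (by rw [hD1]; simp [hδπ]) hf
  intro f
  by_cases hf : f = 0
  · rw [hf, div_zero]
    exact Ge.zero
  have h2 := Pool.Agent.TH145.GH.loss_all P h1 hf
  have h3 : ((unif P * (δ (unif P))⁻¹) • δ) f / f = unif P * f⁻¹ * D1 f := by
    rw [hD1]
    simp only [Derivation.coe_smul, Pi.smul_apply, smul_eq_mul]
    field_simp
  rw [h3]
  have h4 : Ge P (1 + -P.ord f) (unif P * f⁻¹) :=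
    Ge.mul (Or.inr hπ.ge) (Or.inr (P.ord_inv f).ge)
  have h5 := h4.mul h2
  have h6 : 1 + -P.ord f + (P.ord f - (0 + 1)) = 0 := by ring
  rw [h6] at h5
  exact h5

/-- The degree inequality given by a form with logarithmic poles. -/
theorem deg_ineqS {x y : Fin (n + 1) → L} {i0 : Fin (n + 1)} (hi0 : x i0 ≠ 0)
    {ik : Fin (n + 1) × Fin (n + 1)} (hik : pl x y ik ≠ 0) {h r : ℤ}
    {Φ : (Fin 1 → Derivation k L L) → L}
    (hlin : ∀ (M : Matrix (Fin 1) (Fin 1) L) (D1 D2 : Fin 1 → Derivation k L L),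
        (∀ i f, D1 i f = ∑ j, M i j * D2 j f) → Φ D1 = M.det * Φ D2)
    {E : Fin 1 → Derivation k L L} (hΦE : Φ E ≠ 0) {S : Set (Place k L)} (hS : S.Finite)
    (hΦ : ∀ Q : Place k L, ∀ Dd : Fin 1 → Derivation k L L,
      (((∀ i, DerReg Q (Dd i)) ∧ Q ∉ S) ∨ ∀ i, DerLog Q (Dd i)) →
      Ge Q (-(h * pord Q (nx x i0)) - r * po Q (np x y ik)) (Φ Dd)) :
    h * pht k x + r * fht k (pl x y) ≤ canDeg k L + S.ncard := by
  classical
  have hx0 : x ≠ 0 := by
    rintro rfl
    exact hi0 rfl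
  have hp0 : pl x y ≠ 0 := fun h0 => hik (by rw [h0]; rfl)
  obtain ⟨δ, hδ⟩ : ∃ δ, δ = E 0 := ⟨_, rfl⟩
  have hsc : ∀ (c : L), Φ (fun _ => c • δ) = c * Φ E := by
    intro c
    have h1 := hlin (Matrix.of fun _ _ => c) (fun _ => c • δ) E (fun i f => by
      rw [Fin.sum_univ_one, Matrix.of_apply, hδ]
      rfl)
    rw [h1, Matrix.det_unique, Matrix.of_apply]
  have hδ0 : δ ≠ 0 := by
    intro h1
    apply hΦE
    have h2 := hsc 0
    have h3 : (fun _ : Fin 1 => (0 : L) • δ) = E := by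
      funext i
      rw [zero_smul, Subsingleton.elim i 0, ← hδ, h1]
    rwa [h3, zero_mul] at h2
  obtain ⟨s, hLs, hs⟩ := loc_ind hS
  have hloc : ∀ P : Place k L, (-h) * pord P x + (-r) * po P (pl x y) +
      1 * P.ord (x i0 ^ h * pl x y ik ^ r) - (-vo P δ + s P) ≤ P.ord (Φ E) := by
    intro P
    have hπ := ord_unif P
    have hδπ := der_pi_ne_zero hδ0 P hπ
    have hu0 : unif P ≠ 0 := by
      intro h
      rw [h, P.ord_zero] at hπ
      exact zero_ne_one hπ
    have hsP := hLs.nonneg P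
    have h4 : pord P (nx x i0) = pord P x - P.ord (x i0) := by
      have h4 : nx x i0 = fun j => (x i0)⁻¹ * x j := by
        funext j
        rw [nx, div_eq_mul_inv, mul_comm]
      rw [h4, pord_scale P ⟨i0, hi0⟩ (inv_ne_zero hi0), P.ord_inv]
      ring
    have h5 : po P (np x y ik) = po P (pl x y) - P.ord (pl x y ik) := by
      have h4 : np x y ik = fun j => (pl x y ik)⁻¹ * pl x y j := by
        funext j
        rw [np, div_eq_mul_inv, mul_comm]
      rw [h4, po_scale P (fun h => hik (congrFun h ik)) (inv_ne_zero hik), P.ord_inv]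
      ring
    have h6 : P.ord (x i0 ^ h * pl x y ik ^ r) = h * P.ord (x i0) + r * P.ord (pl x y ik) := by
      rw [P.ord_mul (zpow_ne_zero _ hi0) (zpow_ne_zero _ hik), P.ord_zpow, P.ord_zpow]
    rw [h6]
    by_cases hPS : P ∈ S
    · have h1 := hΦ P (fun _ => (unif P * (δ (unif P))⁻¹) • δ) (Or.inr fun i => der_log P hδ0)
      rw [hsc] at h1
      have h2 : unif P * (δ (unif P))⁻¹ * Φ E ≠ 0 :=
        mul_ne_zero (mul_ne_zero hu0 (inv_ne_zero hδπ)) hΦE
      have h3 := h1.resolve_left h2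
      rw [P.ord_mul (mul_ne_zero hu0 (inv_ne_zero hδπ)) hΦE, P.ord_mul hu0 (inv_ne_zero hδπ),
        P.ord_inv, hπ] at h3
      rw [h4, h5] at h3
      have h7 : s P ≠ 0 := fun h0 => hs P h0 hPS
      have h8 : 1 ≤ s P := by omega
      unfold vo
      linarith
    · have h1 := hΦ P (fun _ => (δ (unif P))⁻¹ • δ) (Or.inl ⟨fun i f hf =>
        (der_reg P hπ ((δ (unif P))⁻¹ • δ) (by simp [hδπ]) hf), hPS⟩)
      rw [hsc] at h1
      have h2 : (δ (unif P))⁻¹ * Φ E ≠ 0 := mul_ne_zero (inv_ne_zero hδπ) hΦE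
      have h3 := h1.resolve_left h2
      rw [P.ord_mul (inv_ne_zero hδπ) hΦE, P.ord_inv] at h3
      rw [h4, h5] at h3
      unfold vo
      linarith
  have hfv : {P : Place k L | -vo P δ ≠ 0}.Finite := by
    refine (vo_finite (k := k) hδ0).subset fun P hP => ?_
    intro h0
    apply hP
    rw [h0, neg_zero]
  have h1 := sum_two (k := k) hx0 hp0 (C := fun P => -vo P δ + s P) (by
    refine (hfv.union hLs.fin).subset fun P hP => ?_
    by_contra hcon
    rw [Set.mem_union, not_or] at hcon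
    apply hP
    have h1 : ¬ (-vo P δ ≠ 0) := hcon.1
    have h2 : ¬ (s P ≠ 0) := hcon.2
    push Not at h1 h2
    rw [h1, h2, add_zero]) hloc
  have h2 : ∑ᶠ P : Place k L, (-vo P δ + s P) = canDeg k L + ∑ᶠ P, s P := by
    rw [finsum_add_distrib hfv hLs.fin, canDeg_eq hδ0, finsum_neg_distrib]
  rw [h2] at h1
  have h3 := hLs.le
  linarith

end

/-- The degree of a curve in a generic pair, at a normalised point. -/
theorem curve_pairs1 (n : ℕ) (A : Type) [Fintype A] [DecidableEq A] (dg : A → ℕ) (hn : 1 ≤ n)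
    (hpos : ∀ a, 0 < dg a) (C : Finset A) (hCb : ∃ b, b ∉ C)
    (hd : 3 * n + 2 ≤ 2 * ∑ a, dg a + C.card) :
    ∃ c : ℤ, 0 ≤ c ∧ ∀ (k0 k L Ω : Type) [Field k0] [Field k] [Field L] [Field Ω] [Algebra k0 k]
      [Algebra k L] [Algebra L Ω] [IsAlgClosed k] [CharZero k] [IsFF k L] [IsAlgClosed Ω]
      (G : A → MvPolynomial (Fin (n + 1)) k), (∀ a, (G a).IsHomogeneous (dg a)) →
      (AlgebraicIndependent k0 fun p : (a : A) × {I : Fin (n + 1) →₀ ℕ // I.degree = dg a} =>
        (G p.1).coeff p.2.1) →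
      ∀ (x : Fin (n + 1) → L) (j0 : Fin (n + 1)), x j0 = 1 →
      Algebra.IsAlgebraic (coords k x) L → ∀ t : L, Transcendental k t →
      (∀ c ∈ C, aeval x (G c) = 0) → (∀ b, b ∉ C → aeval x (G b) ≠ 0) →
      ¬ Exc 2 (mapF (algebraMap L Ω) fun a => map (algebraMap k L) (G a)) C
        (fun j => algebraMap L Ω (x j)) →
      pht k x ≤ c * (canDeg k L + 2 * hgt k t +
        {P : Place k L | ∃ b, b ∉ C ∧ dg b * pord P x < P.ord (aeval x (G b))}.ncard) := by
  classical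
  obtain ⟨c0, hc0, hcL⟩ := lineM_u n A dg C
  obtain ⟨e, he⟩ : ∃ e, e = ∑ a, dg a := ⟨_, rfl⟩
  refine ⟨2 * c0 + e + 1, by positivity, ?_⟩
  intro k0 k L Ω _ _ _ _ _ _ _ _ _ _ _ G hG hind x j0 hx1 hgen t0 ht0 hxC hxb hexc
  have hLz : CharZero L := charZero_of_injective_algebraMap (algebraMap k L).injective
  have hΩz : CharZero Ω := charZero_of_injective_algebraMap (algebraMap L Ω).injective
  have hFF : IsFF k L := inferInstance
  have htr : Algebra.trdeg k L = (1 : ℕ) := by rw [hFF.trdeg, Nat.cast_one]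
  obtain ⟨F, hFG⟩ : ∃ F : Fam L n A, ∀ a, F a = map (algebraMap k L) (G a) := ⟨_, fun _ => rfl⟩
  have hFeq : (fun a => map (algebraMap k L) (G a)) = F := (funext hFG).symm
  have hF : ∀ a, (F a).IsHomogeneous (dg a) := fun a => by
    rw [hFG]
    exact (hG a).map _
  have hev : ∀ a, aeval x (G a) = eval x (F a) := fun a => by
    rw [hFG, eval_map]
    rfl
  simp only [hev] at hxC hxb ⊢
  rw [hFeq] at hexc
  obtain ⟨l, hl⟩ := exists_coord_basis htr hgen
  choose E hE using fun i : Fin 1 => exists_der (fun i => x (l i)) hl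
    fun j => if i = j then (1 : L) else 0
  obtain ⟨D, hD, hS, hcm⟩ := exists_duals_L hl G hind
  rw [hFeq] at hD
  have hFk : ∀ a u, ∃ c : k, (F a).coeff u = algebraMap k L c := fun a u => by
    rw [hFG, coeff_map]
    exact ⟨_, rfl⟩
  have hFK : ∀ ξ a u, vE E ξ ((F a).coeff u) = 0 := fun ξ a u => by
    obtain ⟨c, hc⟩ := hFk a u
    rw [hc]
    exact (E ξ).map_algebraMap c
  have hx0 : x ≠ 0 := by
    rintro h
    rw [h] at hx1
    exact zero_ne_one hx1
  have hind' := rank_Ve hx1 hE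
  have hp0 : 0 ≤ pht k x := pht_nonneg hx0
  have hcoef : ∀ (P : Place k L) a u, Ge P (-(0 : ℤ)) ((F a).coeff u) := fun P a u => by
    obtain ⟨c, hc⟩ := hFk a u
    rw [hc, neg_zero]
    exact Ge.const _
  obtain ⟨M, hM⟩ : ∃ M : Set (Place k L), M =
    {P : Place k L | ∃ b, b ∉ C ∧ dg b * pord P x < P.ord (eval x (F b))} := ⟨_, rfl⟩
  have hMf : M.Finite := by rw [hM]; exact meets_finite (κ := k) F dg C hx0
  rw [← hM]
  obtain ⟨T, hT⟩ : ∃ T : ℤ, T = canDeg k L + 2 * hgt k t0 + M.ncard := ⟨_, rfl⟩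
  rw [← hT]
  have hht : 0 ≤ hgt k t0 := hgt_nonneg t0
  obtain ⟨δ, hδt⟩ : ∃ δ : Derivation k L L, δ t0 = 1 := by
    obtain ⟨δ0, hδ0⟩ := Pool.Agent.W603.LV.exists_der (k := k) (K := L)
    have h0 := der_ne_zero hδ0 ht0
    refine ⟨(δ0 t0)⁻¹ • δ0, ?_⟩
    rw [Derivation.coe_smul, Pi.smul_apply, smul_eq_mul, inv_mul_cancel₀ h0]
  have hδ : δ ≠ 0 := by
    rintro rfl
    simp at hδt
  have hLe := loc_T ht0 hδt
  have hE0 := hLe.B_nonneg
  have hM0 : (0 : ℤ) ≤ M.ncard := by positivity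
  have hT0 : 0 ≤ T := by rw [hT]; linarith
  have he0 : (0 : ℤ) ≤ e := by positivity
  rcases tricho_G hpos hF hD hFK hcm hn (by rw [Fintype.card_fin]; exact one_pos) hCb hd hxC hxb
    hx0 hind' with ⟨y, ik, hik, hOn, hOne⟩ | ⟨w', b, u, t, rn, y, i0, ik, hi0, hik, hrn, hnum⟩
  · exact (hexc (exc_map _ hF hxC ⟨y, ik, hik, hOn, pun_of_one (by norm_num) hOne⟩)).elim
  have hpl0 : pl x y ≠ 0 := fun h0 => hik (by rw [h0]; rfl)
  have hf0 : 0 ≤ fht k (pl x y) := fht_nonneg hpl0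
  obtain ⟨h, hh⟩ : ∃ h, h = ∑ a, dg a - (n + 1 + b + t) := ⟨_, rfl⟩
  obtain ⟨r, hr⟩ : ∃ r, r = t - u := ⟨_, rfl⟩
  obtain ⟨Φ, hlin, hΦE, hΦ⟩ := exists_phi hpos hF hD one_pos htr hS hl hE hFk hxC hxb hi0 hik rn
    hrn (h := h) (r := r) (by simp only [Fintype.card_fin]; omega)
    (by simp only [Fintype.card_fin]; omega)
  have h1 : (h : ℤ) * pht k x + r * fht k (pl x y) ≤ canDeg k L + M.ncard := by
    refine deg_ineqS hi0 hik hlin hΦE hMf fun Q Dd hDd => ?_
    refine hΦ Q (div_one Q) Dd ?_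
    rcases hDd with ⟨h1, h2⟩ | h1
    · refine Or.inl ⟨h1, fun b hb => ?_⟩
      by_contra hcon
      exact h2 (by rw [hM]; exact ⟨b, hb, not_le.1 hcon⟩)
    · exact Or.inr h1
  have hr0 : (0 : ℤ) ≤ r := by positivity
  have hh0 : (0 : ℤ) ≤ h := by positivity
  have h1' : (h : ℤ) * pht k x + r * fht k (pl x y) ≤ T := by rw [hT]; linarith
  rcases hnum with ⟨h2, h3⟩ | ⟨h2, h3⟩
  · have e1 : (1 : ℤ) ≤ h := by exact_mod_cast (by omega : 1 ≤ h)
    have e2 : pht k x ≤ T := by nlinarith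
    nlinarith
  · have e1 : (1 : ℤ) ≤ r := by exact_mod_cast (by omega : 1 ≤ r)
    have e2 : fht k (pl x y) ≤ T := by nlinarith
    have e2' : fht k (pl x y) ≤ canDeg k L + M.ncard := by nlinarith
    by_cases hz : OnL F C x y
    · obtain ⟨s, hLs, hs⟩ := loc_ind hMf
      have h4 := hcL k L Ω δ (fun P => max (-vo P δ) 0) (canDeg k L + 2 * hgt k t0) hδ hLe
        (fun P f hf => loss_delta P hδ hf) F hF (fun _ => 0) 0 Loc.zero
        (fun P b u => hcoef P b u) s _ hLs (canDeg k L + M.ncard) x y ik hik e2' hxb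
        (fun P hP b hb => by
          by_contra hcon
          exact hs P hP (by rw [hM]; exact ⟨b, hb, not_le.1 hcon⟩))
        (fun hpun => hexc ⟨fun j => algebraMap L Ω (y j), ik, by
          rw [pl_map]
          dsimp only
          rwa [Ne, map_eq_zero], (onL_mapF (algebraMap L Ω) hF hxC).2 hz, hpun⟩)
      refine h4.trans ?_
      have h5 : 0 + (canDeg k L + M.ncard) + M.ncard + (canDeg k L + 2 * hgt k t0) ≤ 2 * T := by
        rw [hT]
        linarith
      have h6 := mul_le_mul_of_nonneg_left h5 hc0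
      have h7 : 0 ≤ (e + 1 : ℤ) * T := by positivity
      nlinarith
    · unfold OnL at hz
      push Not at hz
      obtain ⟨c, hc, a, b', hab⟩ := hz
      obtain ⟨ξ, hξ⟩ := exists_xi (k := k) hik hab
      have hfin0 : {P : Place k L | (fun _ : Place k L => (0 : ℤ)) P ≠ 0}.Finite := by
        simp
      have h4 := sum_two (k := k) hx0 hpl0 hfin0
        (fun P => line_local (hF c) (hxC c hc) hik hξ P (hcoef P c))
      rw [finsum_zero] at h4
      have h5 : (dg c : ℤ) ≤ e := by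
        rw [he]
        exact_mod_cast Finset.single_le_sum (f := dg) (fun _ _ => Nat.zero_le _)
          (Finset.mem_univ c)
      have h6 : pht k x ≤ dg c * fht k (pl x y) := by linarith
      have h7 : (dg c : ℤ) * fht k (pl x y) ≤ e * T := by
        calc (dg c : ℤ) * fht k (pl x y) ≤ e * fht k (pl x y) :=
              mul_le_mul_of_nonneg_right h5 hf0
          _ ≤ e * T := mul_le_mul_of_nonneg_left e2 he0
      have h8 : 0 ≤ (2 * c0 + 1) * T := by positivity
      nlinarith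

/-- The degrees of the curves in generic pairs. -/
theorem curve_pairsG (n : ℕ) (A : Type) [Fintype A] [DecidableEq A] (dg : A → ℕ) (hn : 1 ≤ n)
    (hpos : ∀ a, 0 < dg a) (C : Finset A) (hCb : ∃ b, b ∉ C)
    (hd : 3 * n + 2 ≤ 2 * ∑ a, dg a + C.card) :
    ∃ c : ℤ, 0 ≤ c ∧ ∀ (k0 k L Ω : Type) [Field k0] [Field k] [Field L] [Field Ω] [Algebra k0 k]
      [Algebra k L] [Algebra L Ω] [IsAlgClosed k] [CharZero k] [IsFF k L] [IsAlgClosed Ω]
      (F : A → MvPolynomial (Fin (n + 1)) k), (∀ a, (F a).IsHomogeneous (dg a)) →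
      (AlgebraicIndependent k0 fun p : TH145.GC.Cf n dg => (F p.1).coeff p.2.1) →
      ∀ (x : Fin (n + 1) → L), x ≠ 0 → ∀ t : L, Transcendental k t →
      (∀ c ∈ C, aeval x (F c) = 0) → (∀ b, b ∉ C → aeval x (F b) ≠ 0) →
      ¬ Exc 2 (mapF (algebraMap L Ω) fun a => map (algebraMap k L) (F a)) C
        (fun j => algebraMap L Ω (x j)) →
      pht k x ≤ c * (canDeg k L + 2 * hgt k t +
        {P : Place k L | ∃ b, b ∉ C ∧ dg b * pord P x < P.ord (aeval x (F b))}.ncard) := by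
  classical
  obtain ⟨c, hc0, hc⟩ := curve_pairs1 n A dg hn hpos C hCb hd
  refine ⟨c, hc0, ?_⟩
  intro k0 k L Ω _ _ _ _ _ _ _ _ _ _ _ G hG hind f hf0 t ht hfC hfb hexc
  have hht : 0 ≤ hgt k t := hgt_nonneg t
  have hcd := canDeg_ge (k := k) ht
  rcases le_or_gt (pht k f) 0 with hp | hp
  · refine hp.trans ?_
    have h1 : (0 : ℤ) ≤ ({P : Place k L | ∃ b, b ∉ C ∧
      dg b * pord P f < P.ord (aeval f (G b))}.ncard : ℤ) := by positivity
    have h2 : 0 ≤ canDeg k L + 2 * hgt k t + {P : Place k L | ∃ b, b ∉ C ∧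
      dg b * pord P f < P.ord (aeval f (G b))}.ncard := by linarith
    positivity
  have hgen := alg_of_pht hf0 hp
  obtain ⟨j0, hj0⟩ := Function.ne_iff.1 hf0
  have hj0' : f j0 ≠ 0 := hj0
  obtain ⟨x, hx⟩ : ∃ x : Fin (n + 1) → L, x = (f j0)⁻¹ • f := ⟨_, rfl⟩
  have hfx : f = f j0 • x := by
    rw [hx, smul_smul, mul_inv_cancel₀ hj0', one_smul]
  have hx1 : x j0 = 1 := by
    rw [hx]
    exact inv_mul_cancel₀ hj0'
  have hev : ∀ a, aeval f (G a) = f j0 ^ dg a * aeval x (G a) := by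
    intro a
    have h1 : ∀ z : Fin (n + 1) → L, aeval z (G a) = eval z (map (algebraMap k L) (G a)) := by
      intro z
      rw [eval_map]
      rfl
    rw [h1, h1]
    conv_lhs => rw [hfx]
    rw [eval_smul_hom ((hG a).map _)]
  have hgen' : Algebra.IsAlgebraic (coords k x) L := by
    refine alg_of_coords hgen ?_
    unfold coords
    rw [IntermediateField.adjoin_le_iff]
    rintro z ⟨i, j, hj, rfl⟩
    refine IntermediateField.subset_adjoin _ _ ⟨i, j, ?_, ?_⟩
    · rw [hx]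
      exact mul_ne_zero (inv_ne_zero hj0') hj
    · rw [hx, Pi.smul_apply, Pi.smul_apply, smul_eq_mul, smul_eq_mul,
        mul_div_mul_left _ _ (inv_ne_zero hj0')]
  have hxC : ∀ c ∈ C, aeval x (G c) = 0 := fun c hcC => by
    have := hfC c hcC
    rw [hev] at this
    exact (mul_eq_zero.1 this).resolve_left (pow_ne_zero _ hj0')
  have hxb : ∀ b, b ∉ C → aeval x (G b) ≠ 0 := fun b hb => by
    have := hfb b hb
    rw [hev] at this
    exact right_ne_zero_of_mul this
  have hpx : pht k x = pht k f := by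
    have h1 := pht_scale (k := k) (f := f) ⟨j0, hj0'⟩ (inv_ne_zero hj0')
    rw [← h1, hx]
    rfl
  have hset : {P : Place k L | ∃ b, b ∉ C ∧ dg b * pord P f < P.ord (aeval f (G b))} =
      {P : Place k L | ∃ b, b ∉ C ∧ dg b * pord P x < P.ord (aeval x (G b))} := by
    ext P
    refine exists_congr fun b => and_congr_right fun hb => ?_
    have h2 : pord P f = P.ord (f j0) + pord P x := by
      conv_lhs => rw [hfx]
      exact pord_scale P ⟨j0, by rw [hx1]; exact one_ne_zero⟩ hj0'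
    rw [hev, P.ord_mul (pow_ne_zero _ hj0') (hxb b hb), P.ord_pow, h2]
    constructor
    · intro h3; nlinarith
    · intro h3; nlinarith
  rw [hset, ← hpx]
  refine hc k0 k L Ω G hG hind x j0 hx1 hgen' t ht hxC hxb fun h => hexc ?_
  have h2 : (fun j => algebraMap L Ω (f j)) =
      algebraMap L Ω (f j0) • fun j => algebraMap L Ω (x j) := by
    funext j
    rw [Pi.smul_apply, smul_eq_mul, ← map_mul]
    exact congrArg (algebraMap L Ω) (congrFun hfx j)
  rw [h2]
  refine exc_smul (dg := dg) (fun a => ((hG a).map _).map (algebraMap L Ω)) (fun b hb => ?_)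
    ((map_ne_zero (algebraMap L Ω)).2 hj0') h
  rw [eval_mapF, Ne, map_eq_zero, eval_map]
  exact hxb b hb

end Pool.Agent.H435.GB
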