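import Pool.Agent.H435.GB.Fin

/-!
The exceptional lines are exceptional for the degrees of curves.
-/

set_option autoImplicit false

open MvPolynomial FF Pool.Agent.W603.LV Pool.Agent.W603.PV Pool.Agent.TH145.GH
open Pool.Agent.TH145.GC (Cf finite_cf)
open Pool.Agent.W602.GT Pool.Agent.TH145.MG Pool.Agent.TH145.GF
open Pool.Agent.Y735 (po po_finite pl)
open LinearAlgebra.Projectivization

namespace Pool.Agent.H435.GB

open Pool.Agent.Y741

section gm

variable {k : Type} [Field k] [IsAlgClosed k] [CharZero k] {n : ℕ} {A : Type} {dg : A → ℕ}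
  {G : A → MvPolynomial (Fin (n + 1)) k} {C : Finset A} {P : Fin (n + 1) → Polynomial k}

/-- The orders at the places over points where the coordinate is not zero. -/
theorem gm_place (hn0 : ∀ t, t ≠ 0 → ∃ j, (P j).eval t ≠ 0)
    (hb : ∀ t, t ≠ 0 → ∀ b, b ∉ C → eval (fun j => (P j).eval t) (G b) ≠ 0)
    {Q : Place k (RatFunc k)} (hQ : Q.ord (RatFunc.X : RatFunc k) = 0) :
    pord Q (gp P) = 0 ∧ ∀ b, b ∉ C → Q.ord (aeval (gp P) (G b)) = 0 := by
  classical
  have hX : Ge Q 0 (RatFunc.X : RatFunc k) := Or.inr hQ.ge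
  obtain ⟨c, hc⟩ := exists_const Q hX
  have hc0 : c ≠ 0 := by
    rintro rfl
    rw [map_zero, sub_zero] at hc
    have := hc.resolve_left RatFunc.X_ne_zero
    omega
  have hP0 : ∀ p : Polynomial k, Ge Q 0 (algebraMap (Polynomial k) (RatFunc k) p) := fun p => by
    rw [← RatFunc.aeval_X_left_eq_algebraMap]
    exact ge_aeval Q hX p
  have hP1 : ∀ j, Ge Q 1 (gp P j - algebraMap k (RatFunc k) ((P j).eval c)) := by
    intro j
    have h1 : Polynomial.X - Polynomial.C c ∣ P j - Polynomial.C ((P j).eval c) :=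
      Polynomial.X_sub_C_dvd_sub_C_eval
    obtain ⟨q, hq⟩ := h1
    have h2 := congrArg (algebraMap (Polynomial k) (RatFunc k)) hq
    rw [map_mul, map_sub, map_sub, RatFunc.algebraMap_X] at h2
    have h3 : gp P j - algebraMap k (RatFunc k) ((P j).eval c) =
        (RatFunc.X - algebraMap k (RatFunc k) c) * algebraMap (Polynomial k) (RatFunc k) q := h2
    rw [h3]
    have := hc.mul (hP0 q)
    rwa [add_zero] at this
  have h0 : ∀ (z : k) (f : RatFunc k), z ≠ 0 → Ge Q 1 (f - algebraMap k (RatFunc k) z) →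
      f ≠ 0 ∧ Q.ord f = 0 := by
    intro z f hz hf
    have hfz : Ge Q 0 f := by
      have h1 := (hf.mono (by omega : (0 : ℤ) ≤ 1)).add (Ge.const (P := Q) z)
      rwa [sub_add_cancel] at h1
    have h2 : f ≠ 0 ∧ ¬ 1 ≤ Q.ord f := by
      constructor
      · rintro rfl
        rw [zero_sub] at hf
        have h3 := hf.neg
        rw [neg_neg] at h3
        exact hz (const_zero Q h3)
      · intro h4
        have h3 : Ge Q 1 (algebraMap k (RatFunc k) z) := by
          have h6 : Ge Q 1 f := Or.inr h4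
          have h5 := h6.sub hf
          rwa [sub_sub_cancel] at h5
        exact hz (const_zero Q h3)
    refine ⟨h2.1, ?_⟩
    have := hfz.resolve_left h2.1
    omega
  obtain ⟨j, hj⟩ := hn0 c hc0
  have h1 := h0 _ _ hj (hP1 j)
  have h2 : pord Q (gp P) ≤ 0 := by
    have := pord_le Q h1.1
    omega
  have h2' : 0 ≤ pord Q (gp P) := by
    obtain ⟨i, hi, h3⟩ := exists_pord Q ⟨j, h1.1⟩
    rw [← h3]
    exact (hP0 (P i)).resolve_left hi
  refine ⟨le_antisymm h2 h2', fun b hbC => ?_⟩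
  have h3 := red_mvaeval Q (f := gp P) (fun i => hP0 (P i)) hP1 (G b)
  exact (h0 _ _ (hb c hc0 b hbC) h3).2

/-- Maps of large degree to the exceptional lines. -/
theorem deg_unbdd [Fintype A] [DecidableEq A] (hG : ∀ a, (G a).IsHomogeneous (dg a)) {W : Submodule k (Fin (n + 1) → k)}
    (hW : ExL G C W) {v : Fin (n + 1) → k} (hv : v ∈ W) {H : MvPolynomial (Fin (n + 1)) k} {e : ℕ}
    (hH : H.IsHomogeneous e) (hne : eval v H ≠ 0) :
    ∃ S : Finset (Place k (RatFunc k)), ∀ N : ℕ, ∃ f : Fin (n + 1) → RatFunc k,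
      MapU G dg C S f ∧ aeval f H ≠ 0 ∧ (N : ℤ) ≤ pht k f := by
  classical
  have hinf : Infinite k := IsAlgClosed.instInfinite
  have hinj : Function.Injective (algebraMap (Polynomial k) (RatFunc k)) :=
    RatFunc.algebraMap_injective k
  obtain ⟨u0, v0, hu, hv0, hli, hb⟩ := line_gm hG hW.1 hW.2
  obtain ⟨i, j, hij⟩ := pl_of_li hli
  obtain ⟨a0, b0, rfl⟩ := span_of_line hW.1.1 hu hv0 hli hv
  have hq0 : aeval (gp (lp u0 v0)) H ≠ 0 := fun h0 => hne (lp_zero hH h0 a0 b0)
  obtain ⟨q, hq⟩ : ∃ q : Polynomial k, q = aeval (lp u0 v0) H := ⟨_, rfl⟩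
  rw [aeval_gp, ← hq] at hq0
  have hq1 : q ≠ 0 := by
    rintro rfl
    exact hq0 (map_zero _)
  obtain ⟨s0, hs0⟩ : ∃ s0, q.eval s0 ≠ 0 := by
    by_contra hcon
    push Not at hcon
    exact hq1 (Polynomial.funext fun t => by rw [hcon t, Polynomial.eval_zero])
  have hfin : {P : Place k (RatFunc k) | P.ord (RatFunc.X : RatFunc k) ≠ 0}.Finite :=
    finite_support (k := k) _
  refine ⟨hfin.toFinset, fun N => ?_⟩
  obtain ⟨P, hP⟩ : ∃ P : Fin (n + 1) → Polynomial k, ∀ l, P l =
      Polynomial.C (u0 l) * Polynomial.X ^ (N + 1) + Polynomial.C (v0 l) := ⟨_, fun _ => rfl⟩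
  have hPe : ∀ t : k, (fun l => (P l).eval t) = t ^ (N + 1) • u0 + v0 := by
    intro t
    funext l
    rw [hP]
    simp only [Polynomial.eval_add, Polynomial.eval_mul, Polynomial.eval_C,
      Polynomial.eval_pow, Polynomial.eval_X, Pi.add_apply, Pi.smul_apply, smul_eq_mul]
    ring
  have hn0 : ∀ t, t ≠ 0 → ∃ j, (P j).eval t ≠ 0 := by
    intro t ht
    by_contra hcon
    push Not at hcon
    apply comb_ne hli (t ^ (N + 1))
    rw [← hPe]
    exact funext hcon
  have hbP : ∀ t, t ≠ 0 → ∀ b, b ∉ C → eval (fun j => (P j).eval t) (G b) ≠ 0 := by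
    intro t ht b hbC
    rw [hPe]
    have := hb (t ^ (N + 1)) 1 (pow_ne_zero _ ht) one_ne_zero b hbC
    rwa [one_smul] at this
  have hgpl : ∀ l, gp P l = algebraMap k (RatFunc k) (u0 l) * RatFunc.X ^ (N + 1) +
      algebraMap k (RatFunc k) (v0 l) := by
    intro l
    unfold gp
    rw [hP, map_add, map_mul, map_pow, RatFunc.algebraMap_X]
    rfl
  have hΔ : u0 i * v0 j - u0 j * v0 i ≠ 0 := hij
  have hc1 : algebraMap k (RatFunc k) (u0 i) * gp P j - algebraMap k (RatFunc k) (u0 j) * gp P i =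
      algebraMap k (RatFunc k) (u0 i * v0 j - u0 j * v0 i) := by
    rw [hgpl, hgpl, map_sub, map_mul, map_mul]
    ring
  have hc2 : algebraMap k (RatFunc k) (v0 j) * gp P i - algebraMap k (RatFunc k) (v0 i) * gp P j =
      algebraMap k (RatFunc k) (u0 i * v0 j - u0 j * v0 i) * RatFunc.X ^ (N + 1) := by
    rw [hgpl, hgpl, map_sub, map_mul, map_mul]
    ring
  have hg0 : gp P ≠ 0 := by
    intro h0
    rw [h0, Pi.zero_apply, Pi.zero_apply, mul_zero, mul_zero, sub_zero] at hc1
    exact hΔ ((map_eq_zero _).1 hc1.symm)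
  have hX0 : (RatFunc.X : RatFunc k) ≠ 0 := RatFunc.X_ne_zero
  refine ⟨gp P, ⟨hg0, fun c hc => ?_, fun b hbC => ⟨?_, fun Q hQ => ?_⟩⟩, ?_, ?_⟩
  · rw [aeval_gp]
    have h1 : (aeval P (G c) : Polynomial k) = 0 := by
      apply Polynomial.funext
      intro t
      rw [eval_aevalP, Polynomial.eval_zero, hPe]
      exact hW.1.2 c hc _ (W.add_mem (W.smul_mem _ hu) hv0)
    rw [h1, map_zero]
  · rw [aeval_gp]
    intro h0
    have h1 : (aeval P (G b) : Polynomial k) = 0 := hinj (by rw [h0, map_zero])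
    have h2 := eval_aevalP P (G b) 1
    rw [h1, Polynomial.eval_zero] at h2
    exact hbP 1 one_ne_zero b hbC h2.symm
  · rw [Set.Finite.mem_toFinset] at hQ
    have hQ' : Q.ord (RatFunc.X : RatFunc k) = 0 := by
      by_contra hcon
      exact hQ hcon
    obtain ⟨h1, h2⟩ := gm_place hn0 hbP hQ'
    rw [h1, h2 b hbC, mul_zero]
  · rw [aeval_gp]
    intro h0
    have h1 : (aeval P H : Polynomial k) = 0 := hinj (by rw [h0, map_zero])
    obtain ⟨t, ht⟩ := IsAlgClosed.exists_pow_nat_eq s0 (n := N + 1) (by omega)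
    have h2 := eval_aevalP P H t
    rw [h1, Polynomial.eval_zero, hPe, ht, ← lp_eval, ← eval_aevalP, ← hq] at h2
    exact hs0 h2.symm
  · have hge : ∀ (Q : Place k (RatFunc k)) l, Ge Q (pord Q (gp P)) (gp P l) := fun Q l => by
      by_cases h0 : gp P l = 0
      · exact Or.inl h0
      · exact Or.inr (pord_le Q h0)
    have hgc : ∀ (Q : Place k (RatFunc k)) (a b : k) (l m : Fin (n + 1)),
        Ge Q (pord Q (gp P)) (algebraMap k (RatFunc k) a * gp P l -
          algebraMap k (RatFunc k) b * gp P m) := by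
      intro Q a b l m
      have h1 := (Ge.const (P := Q) a).mul (hge Q l)
      have h2 := (Ge.const (P := Q) b).mul (hge Q m)
      rw [zero_add] at h1 h2
      exact h1.sub h2
    have hneg : ∀ Q : Place k (RatFunc k), pord Q (gp P) ≤ 0 := by
      intro Q
      have h1 := hgc Q (u0 i) (u0 j) j i
      rw [hc1] at h1
      have h2 := h1.resolve_left ((_root_.map_ne_zero _).2 hΔ)
      rwa [Q.ord_const hΔ] at h2
    have hL : Loc (κ := k) (fun Q : Place k (RatFunc k) => -pord Q (gp P)) (pht k (gp P)) := by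
      refine ⟨fun Q => by have := hneg Q; omega, ?_, le_of_eq ?_⟩
      · refine (pord_finite (k := k) (Function.ne_iff.1 hg0)).subset fun Q hQ h0 => hQ ?_
        have h1 : pord Q (gp P) = 0 := h0
        rw [h1, neg_zero]
      · unfold pht
        rw [finsum_neg_distrib]
    have h1 := hgt_le_of_loc hL (f := RatFunc.X ^ (N + 1)) fun Q => by
      have h2 := hgc Q (v0 j) (v0 i) i j
      rw [hc2] at h2
      have h3 := (Ge.const (P := Q) (u0 i * v0 j - u0 j * v0 i)⁻¹).mul h2
      rw [zero_add, ← mul_assoc, ← map_mul, inv_mul_cancel₀ hΔ, map_one, one_mul] at h3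
      exact h3.mono (by omega)
    rw [hgt_pow hX0] at h1
    have htr : Transcendental k (RatFunc.X : RatFunc k) :=
      (algebraicIndependent_unique_type_iff (ι := Unit)).1 (basis_X (k := k)).1
    have h3 := one_le_hgt htr
    push_cast at h1
    have hN : (0 : ℤ) ≤ N := by positivity
    nlinarith

end gm

section

variable {k0 k : Type} [Field k0] [Field k] [Algebra k0 k] [IsAlgClosed k] [CharZero k] {n : ℕ}
  {A : Type} [Fintype A] [DecidableEq A] {d : A → ℕ} {G : A → MvPolynomial (Fin (n + 1)) k}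
  {C : Finset A}

omit [CharZero k] in
/-- The maps with image not in the zero locus of a form that vanishes on the exceptional lines. -/
theorem not_exc_of_form (hG : ∀ a, (G a).IsHomogeneous (d a)) {H : MvPolynomial (Fin (n + 1)) k}
    (hH : ∀ W, ExL G C W → ∀ v ∈ W, eval v H = 0) {L : Type} [Field L] [Algebra k L]
    {f : Fin (n + 1) → L} (hfb : ∀ b, b ∉ C → aeval f (G b) ≠ 0) (hfH : aeval f H ≠ 0) :
    ¬ Exc 2 (mapF (algebraMap L (AlgebraicClosure L)) fun a => map (algebraMap k L) (G a)) C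
      (fun j => algebraMap L (AlgebraicClosure L) (f j)) := by
  intro h
  have hmapF : (mapF (algebraMap L (AlgebraicClosure L)) fun a => map (algebraMap k L) (G a)) =
      fun a => map (algebraMap k (AlgebraicClosure L)) (G a) := by
    unfold mapF
    funext a
    rw [map_map, ← IsScalarTower.algebraMap_eq]
  rw [hmapF] at h
  have hev : ∀ p : MvPolynomial (Fin (n + 1)) k,
      aeval (fun j => algebraMap L (AlgebraicClosure L) (f j)) p =
        algebraMap L (AlgebraicClosure L) (aeval f p) := fun p =>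
    aeval_algebraMap_apply (AlgebraicClosure L) f p
  obtain ⟨z, hzb, hz1, hz2⟩ := exc_transfer hG (fun b hb => by
    rw [hev]
    exact (_root_.map_ne_zero _).2 (hfb b hb)) h (H := H) (by
    rw [hev]
    exact (_root_.map_ne_zero _).2 hfH)
  obtain ⟨W, h2, h3, h4⟩ := exc_line hG hzb hz1
  exact hz2 (hH W ⟨h2, h3⟩ z h4)

end

/-- Degrees outside of the exceptional lines. -/
theorem exact_degrees {n : ℕ} (hn : 1 ≤ n) {A : Type} [Fintype A] [DecidableEq A] {d : A → ℕ}
    (hd0 : ∀ a, 0 < d a) (C : Finset A) (hC : C ≠ Finset.univ)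
    (hd : 3 * n + 2 ≤ 2 * ∑ a, d a + C.card) :
    ∃ B0 : ℕ, ∀ B : ℕ, B0 ≤ B → ∀ (k0 k : Type) [Field k0] [Field k] [Algebra k0 k] [IsAlgClosed k] [CharZero k]
      (F : A → MvPolynomial (Fin (n + 1)) k), (∀ a, (F a).IsHomogeneous (d a)) →
      (AlgebraicIndependent k0 fun p : (a : A) × {I : Fin (n + 1) →₀ ℕ // I.degree = d a} =>
        (F p.1).coeff p.2.1) →
      ∀ (H : MvPolynomial (Fin (n + 1)) k) (e : ℕ), H.IsHomogeneous e →
        ((∀ W, ExL F C W → ∀ v ∈ W, eval v H = 0) ↔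
          ∀ (L : Type) [Field L] [Algebra k L] [IsFF k L] (S : Finset (Place k L))
            (f : Fin (n + 1) → L), MapU F d C S f → aeval f H ≠ 0 →
              pht k f ≤ B * max (canDeg k L + S.card) 0) ∧
        ((∀ W, ExL F C W → ∀ v ∈ W, eval v H = 0) ↔
          ∃ β : ℤ → ℝ, ∀ (L : Type) [Field L] [Algebra k L] [IsFF k L] (S : Finset (Place k L))
            (f : Fin (n + 1) → L), MapU F d C S f → aeval f H ≠ 0 →
              (pht k f : ℝ) ≤ β (canDeg k L + S.card)) ∧
        ((∀ W, ExL F C W → ∀ v ∈ W, eval v H = 0) ↔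
          ∀ (K : Type) [Field K] [Algebra k K] (w : ℕ) (y : Fin (n + 1) → K), 0 < w →
            SubV F C w y → aeval y H ≠ 0 → LGT F d C w y) := by
  classical
  have hb : ∃ b, b ∉ C := by
    by_contra hcon
    push Not at hcon
    exact hC (Finset.eq_univ_iff_forall.2 hcon)
  obtain ⟨B, hB⟩ := deg_pairsG n A d hn hd0 C hb hd
  refine ⟨B, fun B' hBB => ?_⟩
  intro k0 k _ _ _ _ _ F hF hgen H e hH
  have h1 : (∀ W, ExL F C W → ∀ v ∈ W, eval v H = 0) →
      ∀ (L : Type) [Field L] [Algebra k L] [IsFF k L] (S : Finset (Place k L))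
            (f : Fin (n + 1) → L), MapU F d C S f → aeval f H ≠ 0 →
              pht k f ≤ B' * max (canDeg k L + S.card) 0 := by
    intro h L _ _ _ S f hf hfH
    refine (hB k0 k L (AlgebraicClosure L) F hF hgen S f hf.1 hf.2.1 (fun b hb => (hf.2.2 b hb).1)
      (fun b hb => (hf.2.2 b hb).2) (not_exc_of_form hF h (fun b hb => (hf.2.2 b hb).1) hfH)).trans
      (mul_le_mul_of_nonneg_right (by exact_mod_cast hBB) (le_max_right _ _))
  have h2 : (∀ (L : Type) [Field L] [Algebra k L] [IsFF k L] (S : Finset (Place k L))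
            (f : Fin (n + 1) → L), MapU F d C S f → aeval f H ≠ 0 →
              pht k f ≤ B' * max (canDeg k L + S.card) 0) →
      ∃ β : ℤ → ℝ, ∀ (L : Type) [Field L] [Algebra k L] [IsFF k L] (S : Finset (Place k L))
            (f : Fin (n + 1) → L), MapU F d C S f → aeval f H ≠ 0 →
              (pht k f : ℝ) ≤ β (canDeg k L + S.card) := by
    intro h
    refine ⟨fun m => ((B' * max m 0 : ℤ) : ℝ), fun L _ _ _ S f hf hfH => ?_⟩
    have h5 := h L S f hf hfH
    exact Int.cast_le.2 h5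
  have h3 : (∃ β : ℤ → ℝ, ∀ (L : Type) [Field L] [Algebra k L] [IsFF k L] (S : Finset (Place k L))
            (f : Fin (n + 1) → L), MapU F d C S f → aeval f H ≠ 0 →
              (pht k f : ℝ) ≤ β (canDeg k L + S.card)) →
      ∀ W, ExL F C W → ∀ v ∈ W, eval v H = 0 := by
    rintro ⟨β, hβ⟩ W hW v hv
    by_contra hne
    obtain ⟨S, hS⟩ := deg_unbdd hF hW hv hH hne
    obtain ⟨N, hN⟩ := exists_nat_gt (β (canDeg k (RatFunc k) + S.card))
    obtain ⟨f, hf, hfH, hfN⟩ := hS N
    have h4 := hβ (RatFunc k) S f hf hfH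
    have h5 : (N : ℝ) ≤ (pht k f : ℝ) := by exact_mod_cast hfN
    linarith
  refine ⟨⟨h1, fun h => h3 (h2 h)⟩, ⟨fun h => h2 (h1 h), h3⟩, ?_⟩
  rw [lf_formsG (k0 := k0) hn hd0 hF hgen hb hd hH]
  constructor
  · intro h K _ _ w y hw hy hne
    by_contra hcon
    exact hne (h K w y hw hy hcon)
  · intro h K _ _ w y hw hy hcon
    by_contra hne
    exact hcon (h K w y hw hy hne)

end Pool.Agent.H435.GB
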