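import Pool.Agent.H435.GB.Deg

/-!
Degrees of curves in generic pairs in the borderline case: assembly.
-/

set_option autoImplicit false

open MvPolynomial FF Pool.Agent.W603.LV Pool.Agent.W603.PV Pool.Agent.TH145.GH
open Pool.Agent.TH145.GC (Cf finite_cf)
open Pool.Agent.W602.GT Pool.Agent.TH145.MG Pool.Agent.TH145.GF
open Pool.Agent.Y735 (po po_finite pl)
open LinearAlgebra.Projectivization

namespace Pool.Agent.H435.GB

open Pool.Agent.Y741

/-- The degrees of the maps from affine curves to generic pairs. -/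
theorem deg_pairsG (n : ℕ) (A : Type) [Fintype A] [DecidableEq A] (dg : A → ℕ) (hn : 1 ≤ n)
    (hpos : ∀ a, 0 < dg a) (C : Finset A) (hCb : ∃ b, b ∉ C)
    (hd : 3 * n + 2 ≤ 2 * ∑ a, dg a + C.card) :
    ∃ B : ℕ, ∀ (k0 k L Ω : Type) [Field k0] [Field k] [Field L] [Field Ω] [Algebra k0 k]
      [Algebra k L] [Algebra L Ω] [IsAlgClosed k] [CharZero k] [IsFF k L] [IsAlgClosed Ω]
      (F : A → MvPolynomial (Fin (n + 1)) k), (∀ a, (F a).IsHomogeneous (dg a)) →
      (AlgebraicIndependent k0 fun p : Cf n dg => (F p.1).coeff p.2.1) →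
      ∀ (S : Finset (Place k L)) (x : Fin (n + 1) → L), x ≠ 0 →
      (∀ c ∈ C, aeval x (F c) = 0) → (∀ b, b ∉ C → aeval x (F b) ≠ 0) →
      (∀ b, b ∉ C → ∀ P ∉ S, P.ord (aeval x (F b)) = dg b * pord P x) →
      ¬ Exc 2 (mapF (algebraMap L Ω) fun a => map (algebraMap k L) (F a)) C
        (fun j => algebraMap L Ω (x j)) →
      pht k x ≤ B * max (canDeg k L + S.card) 0 := by
  classical
  obtain ⟨c, hc0, hc⟩ := curve_pairsG n A dg hn hpos C hCb hd
  obtain ⟨b0, hb0⟩ := hCb
  refine ⟨(5 * c).toNat, ?_⟩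
  intro k0 k L Ω _ _ _ _ _ _ _ _ _ _ _ F hF hgen S x hx0 hxC hxb hS hexc
  have hczL : CharZero L := charZero_of_injective_algebraMap (algebraMap k L).injective
  have e5 : (((5 * c).toNat : ℕ) : ℤ) = 5 * c := Int.toNat_of_nonneg (by positivity)
  rw [e5]
  rcases le_or_gt (pht k x) 0 with hp | hp
  · refine hp.trans ?_
    have := le_max_right (canDeg k L + (S.card : ℤ)) 0
    positivity
  obtain ⟨M, hM⟩ : ∃ M : Set (Place k L), M =
    {P : Place k L | ∃ b, b ∉ C ∧ dg b * pord P x < P.ord (aeval x (F b))} := ⟨_, rfl⟩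
  have hMS : M ⊆ S := by
    rw [hM]
    rintro P ⟨b, hb, hlt⟩
    by_contra hPS
    rw [hS b hb P hPS] at hlt
    exact lt_irrefl _ hlt
  have hMc : (M.ncard : ℤ) ≤ S.card := by
    have h1 := Set.ncard_le_ncard hMS S.finite_toSet
    rw [Set.ncard_coe_finset] at h1
    exact_mod_cast h1
  have hS1 : (1 : ℤ) ≤ S.card := by
    obtain ⟨P, hP⟩ := exists_meet (k := k) (hpos b0) hx0 (z := aeval x (F b0)) hp
    have h1 : P ∈ S := hMS (by rw [hM]; exact ⟨b0, hb0, hP⟩)
    have h2 : 0 < S.card := Finset.card_pos.2 ⟨P, h1⟩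
    exact_mod_cast h2
  obtain ⟨t, ht, ht1⟩ := exists_small k L
  rcases lt_or_ge 0 (canDeg k L + (S.card : ℤ)) with hχ | hχ
  · rw [max_eq_left hχ.le]
    have h1 := hc k0 k L Ω F hF hgen x hx0 t ht hxC hxb hexc
    rw [← hM] at h1
    refine h1.trans ?_
    have h2 : canDeg k L + 2 * hgt k t + M.ncard ≤ 5 * (canDeg k L + S.card) := by
      rcases le_or_gt (-1) (canDeg k L) with h3 | h3
      · rw [max_eq_left (by omega)] at ht1
        omega
      · rw [max_eq_right (by omega)] at ht1
        omega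
    calc c * (canDeg k L + 2 * hgt k t + M.ncard) ≤ c * (5 * (canDeg k L + S.card)) :=
          mul_le_mul_of_nonneg_left h2 hc0
      _ = 5 * c * (canDeg k L + S.card) := by ring
  · -- the projective line with at most two points removed
    exfalso
    rw [max_eq_right (by omega)] at ht1
    have hcd := canDeg_ge (k := k) ht
    have hS2 : S.card ≤ 2 := by omega
    obtain ⟨u, hu, hu1, huS⟩ := exists_u ht (by omega) S hS2
    obtain ⟨l, hl⟩ := Function.ne_iff.1 hx0
    have hl' : x l ≠ 0 := hl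
    obtain ⟨j, hj⟩ : ∃ j, 1 ≤ hgt k (x j / x l) := by
      by_contra hcon
      push Not at hcon
      have h1 := pht_le (k := k) x hl'
      have h2 : ∑ j, hgt k (x j / x l) ≤ ∑ _j : Fin (n + 1), (0 : ℤ) :=
        Finset.sum_le_sum fun j _ => by have := hcon j; omega
      rw [Finset.sum_const_zero] at h2
      omega
    have hj0 : x j ≠ 0 := by
      intro h0
      rw [h0, zero_div] at hj
      have h1 : hgt k (0 : L) = 0 := by
        have := hgt_algebraic (k := k) (K := L) (f := 0) isAlgebraic_zero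
        exact this
      omega
    let _ : Algebra k Ω := ((algebraMap L Ω).comp (algebraMap k L)).toAlgebra
    have hstΩ : IsScalarTower k L Ω := IsScalarTower.of_algebraMap_eq fun _ => rfl
    obtain ⟨E, hfd, hFFE, v, hvm, hv1, hvt, hmE⟩ := exists_root (k := k) Ω
      (m := (4 * c).toNat + 1) (by omega) hu hu1
    have hcdE := canDeg_le_zero (k := k) hvt hv1
    obtain ⟨x', hx'⟩ : ∃ x' : Fin (n + 1) → E, x' = fun j => algebraMap L E (x j) := ⟨_, rfl⟩
    have hx'0 : x' ≠ 0 := by
      intro h0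
      have h1 := congrFun h0 l
      rw [hx'] at h1
      exact hl' ((map_eq_zero _).1 h1)
    have hev : ∀ a, aeval x' (F a) = algebraMap L E (aeval x (F a)) := by
      intro a
      rw [hx']
      exact aeval_algebraMap_apply E x (F a)
    have h1 := hc k0 k E Ω F hF hgen x' hx'0 v hvt (fun c hc => by rw [hev, hxC c hc, map_zero])
      (fun b hb => by rw [hev]; exact (_root_.map_ne_zero _).2 (hxb b hb)) (by
        intro h
        apply hexc
        have e1 : (mapF (algebraMap E Ω) fun a => map (algebraMap k E) (F a)) =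
            (mapF (algebraMap L Ω) fun a => map (algebraMap k L) (F a)) := by
          unfold mapF
          funext a
          rw [map_map, map_map]
          rfl
        have e2 : (fun j => algebraMap E Ω (x' j)) = fun j => algebraMap L Ω (x j) := by
          rw [hx']
          funext j
          rw [← IsScalarTower.algebraMap_apply L E Ω]
        rw [e1, e2] at h
        exact h)
    have h2 : {P : Place k E | ∃ b, b ∉ C ∧ dg b * pord P x' < P.ord (aeval x' (F b))} ⊆
        {P : Place k E | P.ord v ≠ 0} := by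
      rintro P ⟨b, hb, hlt⟩ hPv
      have hram : (0 : ℤ) < ram L P := by exact_mod_cast (ram_spec (F := L) P).1
      rw [hx', pord_ext P hx0, ← hx', hev, ord_under] at hlt
      have h3 : dg b * pord (under L P) x < (under L P).ord (aeval x (F b)) := by
        by_contra hcon
        push Not at hcon
        have h4 := mul_le_mul_of_nonneg_left hcon hram.le
        have h5 : (ram L P : ℤ) * (dg b * pord (under L P) x) =
            dg b * (ram L P * pord (under L P) x) := by ring
        rw [h5] at h4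
        exact absurd hlt (not_lt.2 h4)
      have h4 : under L P ∈ S := hMS (by rw [hM]; exact ⟨b, hb, h3⟩)
      have h5 := huS _ h4
      have h6 : P.ord (v ^ ((4 * c).toNat + 1)) = ram L P * (under L P).ord u := by
        rw [hvm, ord_under]
      have hPv' : P.ord v = 0 := hPv
      rw [P.ord_pow, hPv', mul_zero] at h6
      rcases mul_eq_zero.1 h6.symm with h7 | h7
      · exact hram.ne' h7
      · exact h5 h7
    have h3 := Set.ncard_le_ncard h2 (finite_support (k := k) v)
    have h4 := card_supp_le (k := k) v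
    have h5 : pht k x' ≤ c * 4 := by
      refine h1.trans (mul_le_mul_of_nonneg_left ?_ hc0)
      have h3' : (({P : Place k E | ∃ b, b ∉ C ∧ dg b * pord P x' <
        P.ord (aeval x' (F b))}.ncard : ℕ) : ℤ) ≤ ({P : Place k E | P.ord v ≠ 0}.ncard : ℕ) := by
        exact_mod_cast h3
      omega
    have h6 := Pool.Agent.W603.CX.hgt_le_pht (k := k) x' (j := j) (l := l)
      (by rw [hx']; exact (_root_.map_ne_zero _).2 hj0)
      (by rw [hx']; exact (_root_.map_ne_zero _).2 hl')
    have h7 : x' j / x' l = algebraMap L E (x j / x l) := by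
      rw [hx', map_div₀]
    rw [h7, hgt_algebraMap] at h6
    have h8 : ((4 * c).toNat : ℤ) = 4 * c := Int.toNat_of_nonneg (by positivity)
    have h9 : (((4 * c).toNat + 1 : ℕ) : ℤ) ≤ Module.finrank L E := by exact_mod_cast hmE
    push_cast at h9
    rw [h8] at h9
    have h10 : (Module.finrank L E : ℤ) ≤ Module.finrank L E * hgt k (x j / x l) := by
      nlinarith
    linarith

/-- The degrees of the curves in generic pairs. -/
theorem generic_degreesG {n : ℕ} (hn : 1 ≤ n) {A : Type} [Fintype A] [DecidableEq A] {d : A → ℕ}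
    (hd0 : ∀ a, 0 < d a) (C : Finset A) (hC : C ≠ Finset.univ)
    (hd : 3 * n + 2 ≤ 2 * ∑ a, d a + C.card) :
    ∃ B : ℕ, ∀ (k0 k : Type) [Field k0] [Field k] [Algebra k0 k] [IsAlgClosed k] [CharZero k]
      (F : A → MvPolynomial (Fin (n + 1)) k), (∀ a, (F a).IsHomogeneous (d a)) →
      (AlgebraicIndependent k0 fun p : (a : A) × {I : Fin (n + 1) →₀ ℕ // I.degree = d a} =>
        (F p.1).coeff p.2.1) →
      (∀ (L : Type) [Field L] [Algebra k L] [IsFF k L] (S : Finset (Place k L))
        (f : Fin (n + 1) → L), MapU F d C S f → pht k f ≤ B * max (canDeg k L + S.card) 0 ∨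
          ∃ W, (IsLine (fun a => map (algebraMap k (AlgebraicClosure L)) (F a)) C W ∧
            (Pts W ∩ Bd (fun a => map (algebraMap k (AlgebraicClosure L)) (F a)) C).encard ≤ 2) ∧
            (fun j => algebraMap L (AlgebraicClosure L) (f j)) ∈ W) ∧
      (2 * n + 1 ≤ ∑ a, d a + C.card → ∀ (L : Type) [Field L] [Algebra k L] [IsFF k L]
        (S : Finset (Place k L)) (f : Fin (n + 1) → L), MapU F d C S f →
          pht k f ≤ B * max (canDeg k L + S.card) 0) ∧
      ∀ (K : Type) [Field K] [Algebra k K] (w : ℕ) (y : Fin (n + 1) → K), 0 < w →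
        2 * n + 2 ≤ ∑ a, d a + C.card + w → Algebra.trdeg k K = w → y ≠ 0 →
        Algebra.IsAlgebraic (coords k y) K → (∀ c ∈ C, aeval y (F c) = 0) →
        (∀ b, b ∉ C → aeval y (F b) ≠ 0) →
        (LogGeneralType k K w fun Q : Place k K =>
          ∃ b, b ∉ C ∧ d b * pord Q y < Q.ord (aeval y (F b))) ∧
        ∃ (G : MvPolynomial (Fin (n + 1)) k) (e : ℕ), G.IsHomogeneous e ∧ aeval y G ≠ 0 ∧
          ∀ (L : Type) [Field L] [Algebra k L] [IsFF k L] (S : Finset (Place k L))
            (f : Fin (n + 1) → L), MapU F d C S f → aeval f G ≠ 0 →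
              pht k f ≤ B * max (canDeg k L + S.card) 0 := by
  classical
  have hb : ∃ b, b ∉ C := by
    by_contra hcon
    push Not at hcon
    exact hC (Finset.eq_univ_iff_forall.2 hcon)
  obtain ⟨B, hB⟩ := deg_pairsG n A d hn hd0 C hb hd
  refine ⟨B, ?_⟩
  intro k0 k _ _ _ _ _ F hF hgen
  have hmapF : ∀ (L : Type) [Field L] [Algebra k L],
      (mapF (algebraMap L (AlgebraicClosure L)) fun a => map (algebraMap k L) (F a)) =
        fun a => map (algebraMap k (AlgebraicClosure L)) (F a) := by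
    intro L _ _
    unfold mapF
    funext a
    rw [map_map, ← IsScalarTower.algebraMap_eq]
  have hevb : ∀ (L : Type) [Field L] [Algebra k L] (f : Fin (n + 1) → L) (a : A),
      eval (fun j => algebraMap L (AlgebraicClosure L) (f j))
        (map (algebraMap k (AlgebraicClosure L)) (F a)) =
        algebraMap L (AlgebraicClosure L) (aeval f (F a)) := by
    intro L _ _ f a
    rw [eval_map, ← aeval_def]
    exact aeval_algebraMap_apply (AlgebraicClosure L) f (F a)
  have hall : ∀ (L : Type) [Field L] [Algebra k L] [IsFF k L] (S : Finset (Place k L))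
      (f : Fin (n + 1) → L), MapU F d C S f →
      ¬ Exc 2 (fun a => map (algebraMap k (AlgebraicClosure L)) (F a)) C
        (fun j => algebraMap L (AlgebraicClosure L) (f j)) →
      pht k f ≤ B * max (canDeg k L + S.card) 0 := by
    intro L _ _ _ S f hf hexc
    refine hB k0 k L (AlgebraicClosure L) F hF hgen S f hf.1 hf.2.1 (fun b hb => (hf.2.2 b hb).1)
      (fun b hb => (hf.2.2 b hb).2) ?_
    rw [hmapF]
    exact hexc
  have hne : ∀ (L : Type) [Field L] [Algebra k L] [IsFF k L] (S : Finset (Place k L))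
      (f : Fin (n + 1) → L), MapU F d C S f → ∀ b, b ∉ C →
      eval (fun j => algebraMap L (AlgebraicClosure L) (f j))
        (map (algebraMap k (AlgebraicClosure L)) (F b)) ≠ 0 := by
    intro L _ _ _ S f hf b hb
    rw [hevb]
    exact (_root_.map_ne_zero _).2 (hf.2.2 b hb).1
  obtain ⟨I0, hI0⟩ : ∃ I0 : A → Fin (n + 1) →₀ ℕ, ∀ a, (I0 a).degree = d a :=
    ⟨fun a => Finsupp.single 0 (d a), fun a => Finsupp.degree_single _ _⟩
  have hgen' : AlgebraicIndependent k0 fun p : Cf n d => (F p.1).coeff p.2.1 := hgen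
  have h0 : ∀ a, (F a).coeff (I0 a) ≠ 0 := fun a => hgen'.ne_zero ⟨a, ⟨I0 a, hI0 a⟩⟩
  refine ⟨fun L _ _ _ S f hf => ?_, fun h2 L _ _ _ S f hf => ?_,
    fun K _ _ w y hw hdw htr hy halg hyC hyb => ⟨?_, ?_⟩⟩
  · by_cases hexc : Exc 2 (fun a => map (algebraMap k (AlgebraicClosure L)) (F a)) C
        (fun j => algebraMap L (AlgebraicClosure L) (f j))
    · right
      obtain ⟨W, hW, hWB, hfW⟩ := exc_line (fun a => (hF a).map _) (hne L S f hf) hexc
      exact ⟨W, ⟨hW, hWB⟩, hfW⟩
    · exact Or.inl (hall L S f hf hexc)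
  · refine hall L S f hf fun hexc => ?_
    have hczL : CharZero (AlgebraicClosure L) :=
      charZero_of_injective_algebraMap (algebraMap k (AlgebraicClosure L)).injective
    obtain ⟨W, hW, hWB, hfW⟩ := exc_line (fun a => (hF a).map _) (hne L S f hf) hexc
    exact no_exc_ext C h2 hF hgen' W hW hWB
  · exact log_sub hw C hdw F hF I0 h0 (ratio_indep_fam hgen' I0 hI0) htr hy halg hyC hyb
  · obtain ⟨G, e, hG, hGy, hGx⟩ := exists_H_sub C hdw F hF hgen' hy halg htr
    refine ⟨G, e, hG, hGy, fun L _ _ _ S f hf hfG => hall L S f hf fun hexc => hfG ?_⟩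
    have h1 := hGx (AlgebraicClosure L) (fun j => algebraMap L (AlgebraicClosure L) (f j)) (by
      intro h
      apply hf.1
      funext j
      exact (map_eq_zero _).1 (congrFun h j)) (hne L S f hf) hexc
    have h2 : aeval (fun j => algebraMap L (AlgebraicClosure L) (f j)) G =
        algebraMap L (AlgebraicClosure L) (aeval f G) := aeval_algebraMap_apply (AlgebraicClosure L) f G
    rw [h2] at h1
    exact (map_eq_zero _).1 h1

section

variable {k0 k : Type} [Field k0] [Field k] [Algebra k0 k] [IsAlgClosed k] [CharZero k] {n : ℕ}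
  {A : Type} [Fintype A] [DecidableEq A] {d : A → ℕ} {G : A → MvPolynomial (Fin (n + 1)) k}
  {C : Finset A}

/-- The subvarieties that are not of log general type are covered by exceptional lines. -/
theorem lf_dichG (hn : 1 ≤ n) (hd0 : ∀ a, 0 < d a) (hG : ∀ a, (G a).IsHomogeneous (d a))
    (hind : AlgebraicIndependent k0 fun p : Cf n d => (G p.1).coeff p.2.1) (hC : ∃ b, b ∉ C)
    (hd : 3 * n + 2 ≤ 2 * ∑ a, d a + C.card) {K : Type} [Field K] [Algebra k K] {w : ℕ}
    {y : Fin (n + 1) → K} (hw : 0 < w) (hy : SubV G C w y) (hy' : ¬ LGT G d C w y)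
    (Ω : Type) [Field Ω] [Algebra k Ω] [IsAlgClosed Ω] (ψ : K →ₐ[k] Ω) :
    Exc 2 (fun a => map (algebraMap k Ω) (G a)) C (fun j => ψ (y j)) := by
  obtain ⟨⟨hy0, hyC, hyb⟩, htr, hgen⟩ := hy
  have h1 := (lgt_or_excG (k0 := k0) hn hd0 hG hind hC hd hw htr hy0 hgen hyC hyb
    (ψ : K →+* Ω)).resolve_left hy'
  have h2 : mapF (ψ : K →+* Ω) (fun a => map (algebraMap k K) (G a)) =
      fun a => map (algebraMap k Ω) (G a) := by
    funext a
    unfold mapF
    rw [map_map, ψ.comp_algebraMap]
  rw [h2] at h1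
  exact h1

/-- The forms that vanish on the exceptional lines. -/
theorem lf_formsG (hn : 1 ≤ n) (hd0 : ∀ a, 0 < d a) (hG : ∀ a, (G a).IsHomogeneous (d a))
    (hind : AlgebraicIndependent k0 fun p : Cf n d => (G p.1).coeff p.2.1) (hC : ∃ b, b ∉ C)
    (hd : 3 * n + 2 ≤ 2 * ∑ a, d a + C.card) {H : MvPolynomial (Fin (n + 1)) k} {e : ℕ}
    (hH : H.IsHomogeneous e) :
    (∀ W, ExL G C W → ∀ v ∈ W, eval v H = 0) ↔
      ∀ (K : Type) [Field K] [Algebra k K] (w : ℕ) (y : Fin (n + 1) → K), 0 < w →
        SubV G C w y → ¬ LGT G d C w y → aeval y H = 0 := by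
  classical
  constructor
  · intro h K _ _ w y hw hy hy'
    by_contra hne
    have h1 := lf_dichG (k0 := k0) hn hd0 hG hind hC hd hw hy hy' (AlgebraicClosure K)
      (IsScalarTower.toAlgHom k K (AlgebraicClosure K))
    have hmap : ∀ p : MvPolynomial (Fin (n + 1)) k,
        aeval (fun j => (IsScalarTower.toAlgHom k K (AlgebraicClosure K)) (y j)) p =
          (IsScalarTower.toAlgHom k K (AlgebraicClosure K)) (aeval y p) := fun p => by
      rw [comp_aeval_apply]
    have hinj : ∀ z : K, z ≠ 0 → (IsScalarTower.toAlgHom k K (AlgebraicClosure K)) z ≠ 0 :=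
      fun z hz => (map_ne_zero _).2 hz
    obtain ⟨z, hzb, hz1, hz2⟩ := exc_transfer hG (fun b hb => by
      rw [hmap]
      exact hinj _ (hy.1.2.2 b hb)) h1 (H := H) (by
      rw [hmap]
      exact hinj _ hne)
    obtain ⟨W, h2, h3, h4⟩ := exc_line hG hzb hz1
    exact hz2 (h W ⟨h2, h3⟩ z h4)
  · intro h W hW v hv
    obtain ⟨u0, v0, hu, hv0, hli, hb⟩ := line_gm hG hW.1 hW.2
    obtain ⟨i, j, hij⟩ := pl_of_li hli
    have hb' : ∀ t : k, t ≠ 0 → ∀ b, b ∉ C → eval (fun j => (lp u0 v0 j).eval t) (G b) ≠ 0 := by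
      intro t ht b hbC
      rw [lp_eval]
      have := hb t 1 ht one_ne_zero b hbC
      rwa [one_smul] at this
    obtain ⟨h1, h2, h3, h4⟩ := gm_on (P := lp u0 v0) (G := G) (C := C) (fun t ht c hc => by
      rw [lp_eval]
      exact hW.1.2 c hc _ (W.add_mem (W.smul_mem _ hu) hv0)) hb' (lp_nc hij)
    have h5 := gm_not_lgt (P := lp u0 v0) (G := G) (C := C) (dg := d) (fun t ht => by
      by_contra hcon
      push Not at hcon
      apply comb_ne hli t
      rw [← lp_eval]
      exact funext hcon) hb'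
    have h6 := h (RatFunc k) 1 (gp (lp u0 v0)) one_pos
      ⟨⟨h1, h2, h3⟩, by rw [trdeg_rat, Nat.cast_one], h4⟩ h5
    obtain ⟨a, b, rfl⟩ := span_of_line hW.1.1 hu hv0 hli hv
    exact lp_zero hH h6 a b

end


end Pool.Agent.H435.GB
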