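import Pool.Agent.H435.GB.Tri

/-!
Subvarieties of generic pairs in the borderline case: log general type, or covered by exceptional
lines.
-/

set_option autoImplicit false

open MvPolynomial FF Pool.Agent.W603.LV Pool.Agent.W603.PV Pool.Agent.TH145.GH
open Pool.Agent.Y735 (lf pm tm pl vol vol_apply po po_le exists_po zp zp_pl zp_smul exists_xi rho
  eval_rho)
open Pool.Agent.W602.GT Pool.Agent.TH145.GF

namespace Pool.Agent.H435.GB

open Pool.Agent.Y741

section

variable {k0 k L : Type} [Field k0] [Field k] [Field L] [Algebra k0 k] [Algebra k L]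
  [IsAlgClosed k] [CharZero k] {n w : ℕ} {A : Type} [Fintype A] [DecidableEq A] {dg : A → ℕ}

/-- Log general type, or covered by exceptional lines, at a normalised point. -/
theorem lgt_or_excG1 (hn : 1 ≤ n) (hpos : ∀ a, 0 < dg a) {G : A → MvPolynomial (Fin (n + 1)) k}
    (hG : ∀ a, (G a).IsHomogeneous (dg a))
    (hind : AlgebraicIndependent k0 fun p : (a : A) × {I : Fin (n + 1) →₀ ℕ // I.degree = dg a} =>
      (G p.1).coeff p.2.1) {C : Finset A} (hC : ∃ b, b ∉ C)
    (hd : 3 * n + 2 ≤ 2 * ∑ a, dg a + C.card) (hw : 0 < w) (htr : Algebra.trdeg k L = w)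
    {x : Fin (n + 1) → L} {j0 : Fin (n + 1)} (hx1 : x j0 = 1)
    (hgen : Algebra.IsAlgebraic (coords k x) L)
    (hxC : ∀ c ∈ C, aeval x (G c) = 0) (hxb : ∀ b, b ∉ C → aeval x (G b) ≠ 0)
    {Λ : Type} [Field Λ] [IsAlgClosed Λ] (ψ : L →+* Λ) :
    LogGeneralType k L w (fun Q => ∃ b, b ∉ C ∧ dg b * pord Q x < Q.ord (aeval x (G b))) ∨
      Exc 2 (mapF ψ fun a => map (algebraMap k L) (G a)) C (fun j => ψ (x j)) := by
  classical
  have hLz : CharZero L := charZero_of_injective_algebraMap (algebraMap k L).injective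
  have hΛz : CharZero Λ := charZero_of_injective_ringHom ψ.injective
  obtain ⟨F, hFG⟩ : ∃ F : Fam L n A, ∀ a, F a = map (algebraMap k L) (G a) := ⟨_, fun _ => rfl⟩
  have hFeq : (fun a => map (algebraMap k L) (G a)) = F := (funext hFG).symm
  have hF : ∀ a, (F a).IsHomogeneous (dg a) := fun a => by
    rw [hFG]
    exact (hG a).map _
  have hev : ∀ a, aeval x (G a) = eval x (F a) := fun a => by
    rw [hFG, eval_map]
    rfl
  simp only [hev] at hxC hxb ⊢
  rw [hFeq]
  obtain ⟨l, hl⟩ := exists_coord_basis htr hgen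
  choose E hE using fun i : Fin w => exists_der (fun i => x (l i)) hl
    fun j => if i = j then (1 : L) else 0
  obtain ⟨D, hD, hS, hcm⟩ := exists_duals_L hl G hind
  rw [hFeq] at hD
  have hFk : ∀ a u, ∃ c : k, (F a).coeff u = algebraMap k L c := fun a u => by
    rw [hFG, coeff_map]
    exact ⟨_, rfl⟩
  have hFK : ∀ ξ a u, vE E ξ ((F a).coeff u) = 0 := fun ξ a u => by
    obtain ⟨c, hc⟩ := hFk a u
    rw [hc]
    exact (E ξ).map_algebraMap c
  have hx0 : x ≠ 0 := by
    rintro h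
    rw [h] at hx1
    exact zero_ne_one hx1
  have hind' := rank_Ve hx1 hE
  rcases tricho_G hpos hF hD hFK hcm hn (by rw [Fintype.card_fin]; exact hw) hC hd hxC hxb hx0
    hind' with ⟨y, ik, hik, hOn, hOne⟩ | ⟨w', b, u, t, rn, y, i0, ik, hi0, hik, hrn, hnum⟩
  · right
    exact exc_map ψ hF hxC ⟨y, ik, hik, hOn, pun_of_one (by norm_num) hOne⟩
  obtain ⟨h, hh⟩ : ∃ h, h = ∑ a, dg a - (n + 1 + b + t) := ⟨_, rfl⟩
  obtain ⟨r, hr⟩ : ∃ r, r = t - u := ⟨_, rfl⟩
  obtain ⟨Φ, hlin, hΦE, hΦ⟩ := exists_phi hpos hF hD hw htr hS hl hE hFk hxC hxb hi0 hik rn hrn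
    (h := h) (r := r) (by simp only [Fintype.card_fin]; omega)
    (by simp only [Fintype.card_fin]; omega)
  have hΦ' : ∀ Q : Place k L, Divisorial w Q → ∀ Dd : Fin w → Derivation k L L,
      (((∀ i, DerReg Q (Dd i)) ∧ ¬ ∃ b, b ∉ C ∧ dg b * pord Q x < Q.ord (eval x (F b))) ∨
        ∀ i, DerLog Q (Dd i)) →
      Ge Q (-(h * pord Q (nx x i0)) - r * po Q (np x y ik)) (Φ Dd) := by
    intro Q hQ Dd hDd
    refine hΦ Q hQ Dd ?_
    rcases hDd with ⟨h1, h2⟩ | h1
    · push Not at h2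
      exact Or.inl ⟨h1, h2⟩
    · exact Or.inr h1
  have hnx0 : ∀ Q : Place k L, pord Q (nx x i0) ≤ 0 := by
    intro Q
    have h1 : nx x i0 i0 = 1 := div_self hi0
    have h2 := pord_le Q (f := nx x i0) (j := i0) (by rw [h1]; exact one_ne_zero)
    rwa [h1, Q.ord_one] at h2
  have hnp0 : ∀ Q : Place k L, po Q (np x y ik) ≤ 0 := by
    intro Q
    have h1 : np x y ik ik = 1 := div_self hik
    have h2 := po_le Q (f := np x y ik) (j := ik) (by rw [h1]; exact one_ne_zero)
    rwa [h1, Q.ord_one] at h2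
  have hr0 : (0 : ℤ) ≤ r := by positivity
  have hh0 : (0 : ℤ) ≤ h := by positivity
  rcases hnum with ⟨h1, h2⟩ | ⟨h1, h2⟩
  · left
    have hxn : x = x i0 • nx x i0 := by
      funext j
      rw [Pi.smul_apply, smul_eq_mul, nx, mul_div_cancel₀ _ hi0]
    have hgen' : Algebra.IsAlgebraic (coords k (nx x i0)) L := by
      refine alg_of_coords hgen ?_
      unfold coords
      rw [IntermediateField.adjoin_le_iff]
      rintro z ⟨i, j, hj, rfl⟩
      refine IntermediateField.subset_adjoin _ _ ⟨i, j, div_ne_zero hj hi0, ?_⟩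
      unfold nx
      field_simp
    obtain ⟨l', hl'⟩ := exists_coord_basis htr hgen'
    refine lgt_big htr _ (E := E) Φ hlin hΦE hnx0 (fun Q hQ Dd hDd => ?_) _ hl'.1 fun Q i => ?_
    · refine (hΦ' Q hQ Dd hDd).mono ?_
      have e1 : (1 : ℤ) ≤ h := by exact_mod_cast (by omega : 1 ≤ h)
      have e2 := hnx0 Q
      have e3 := hnp0 Q
      nlinarith
    · by_cases h0 : nx x i0 (l' i) = 0
      · exact Or.inl h0
      · exact Or.inr (pord_le Q h0)
  · refine lgt_fib hG htr hFG hxC hxb hik hgen hl hE Φ hlin hΦE (fun Q hQ Dd hDd => ?_) ψ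
    refine (hΦ' Q hQ Dd hDd).mono ?_
    have e1 : (1 : ℤ) ≤ r := by exact_mod_cast (by omega : 1 ≤ r)
    have e2 := hnx0 Q
    have e3 := hnp0 Q
    nlinarith

/-- Log general type, or covered by exceptional lines. -/
theorem lgt_or_excG (hn : 1 ≤ n) (hpos : ∀ a, 0 < dg a) {G : A → MvPolynomial (Fin (n + 1)) k}
    (hG : ∀ a, (G a).IsHomogeneous (dg a))
    (hind : AlgebraicIndependent k0 fun p : (a : A) × {I : Fin (n + 1) →₀ ℕ // I.degree = dg a} =>
      (G p.1).coeff p.2.1) {C : Finset A} (hC : ∃ b, b ∉ C)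
    (hd : 3 * n + 2 ≤ 2 * ∑ a, dg a + C.card) (hw : 0 < w) (htr : Algebra.trdeg k L = w)
    {x : Fin (n + 1) → L} (hx0 : x ≠ 0)
    (hgen : Algebra.IsAlgebraic (coords k x) L)
    (hxC : ∀ c ∈ C, aeval x (G c) = 0) (hxb : ∀ b, b ∉ C → aeval x (G b) ≠ 0)
    {Λ : Type} [Field Λ] [IsAlgClosed Λ] (ψ : L →+* Λ) :
    LogGeneralType k L w (fun Q => ∃ b, b ∉ C ∧ dg b * pord Q x < Q.ord (aeval x (G b))) ∨
      Exc 2 (mapF ψ fun a => map (algebraMap k L) (G a)) C (fun j => ψ (x j)) := by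
  classical
  obtain ⟨j0, hj0⟩ := Function.ne_iff.1 hx0
  have hj0' : x j0 ≠ 0 := hj0
  obtain ⟨x', hx'⟩ : ∃ x' : Fin (n + 1) → L, x' = (x j0)⁻¹ • x := ⟨_, rfl⟩
  have hxx : x = x j0 • x' := by
    rw [hx', smul_smul, mul_inv_cancel₀ hj0', one_smul]
  have hx1 : x' j0 = 1 := by
    rw [hx']
    exact inv_mul_cancel₀ hj0'
  have hev : ∀ a, aeval x (G a) = x j0 ^ dg a * aeval x' (G a) := by
    intro a
    have h1 : ∀ z : Fin (n + 1) → L, aeval z (G a) = eval z (map (algebraMap k L) (G a)) := by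
      intro z
      rw [eval_map]
      rfl
    rw [h1, h1]
    conv_lhs => rw [hxx]
    rw [eval_smul_hom ((hG a).map _)]
  have hgen' : Algebra.IsAlgebraic (coords k x') L := by
    refine alg_of_coords hgen ?_
    unfold coords
    rw [IntermediateField.adjoin_le_iff]
    rintro z ⟨i, j, hj, rfl⟩
    refine IntermediateField.subset_adjoin _ _ ⟨i, j, ?_, ?_⟩
    · rw [hx']
      exact mul_ne_zero (inv_ne_zero hj0') hj
    · rw [hx', Pi.smul_apply, Pi.smul_apply, smul_eq_mul, smul_eq_mul,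
        mul_div_mul_left _ _ (inv_ne_zero hj0')]
  have hxb' : ∀ b, b ∉ C → aeval x' (G b) ≠ 0 := fun b hb => by
    have := hxb b hb
    rw [hev] at this
    exact right_ne_zero_of_mul this
  have hxC' : ∀ c ∈ C, aeval x' (G c) = 0 := fun c hc => by
    have := hxC c hc
    rw [hev] at this
    exact (mul_eq_zero.1 this).resolve_left (pow_ne_zero _ hj0')
  rcases lgt_or_excG1 hn hpos hG hind hC hd hw htr hx1 hgen' hxC' hxb' ψ with h | h
  · left
    have h1 : (fun Q : Place k L => ∃ b, b ∉ C ∧ dg b * pord Q x < Q.ord (aeval x (G b))) =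
        fun Q => ∃ b, b ∉ C ∧ dg b * pord Q x' < Q.ord (aeval x' (G b)) := by
      funext Q
      refine propext (exists_congr fun b => and_congr_right fun hb => ?_)
      have h2 : pord Q x = Q.ord (x j0) + pord Q x' := by
        conv_lhs => rw [hxx]
        exact pord_scale Q ⟨j0, by rw [hx1]; exact one_ne_zero⟩ hj0'
      rw [hev, Q.ord_mul (pow_ne_zero _ hj0') (hxb' b hb), Q.ord_pow, h2]
      constructor
      · intro h3; nlinarith
      · intro h3; nlinarith
    rw [h1]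
    exact h
  · right
    have h2 : (fun j => ψ (x j)) = ψ (x j0) • fun j => ψ (x' j) := by
      funext j
      rw [Pi.smul_apply, smul_eq_mul, ← map_mul]
      exact congrArg ψ (congrFun hxx j)
    rw [h2]
    refine exc_smul (dg := dg) (fun a => ((hG a).map _).map ψ) (fun b hb => ?_)
      ((map_ne_zero ψ).2 hj0') h
    rw [eval_mapF, Ne, map_eq_zero, eval_map]
    exact hxb' b hb

end

end Pool.Agent.H435.GB
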